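import Pool.Agent.Helper54.QZ.DT2
import Pool.Agent.Helper77.QZ.DT1
import Pool.Agent.Helper89.QZ.BR
import Pool.Agent.Helper12.Q2.XD
import Pool.Agent.Helper20.Q2.KE3
import Pool.Agent.Helper3.Q2.XM
import Pool.Agent.Helper31.Q2.XS
import Pool.Agent.Helper32.QZ.EP
import Pool.Agent.Helper50.Q2.KE1
import Pool.Agent.Helper7.QZ.GD2
import Pool.Agent.Helper76.Q2.GD1
import Pool.Agent.Helper76.QZ.PL
import Pool.Agent.Helper80.Q2.XR
import Pool.Agent.Helper84.Q2.XB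
import Pool.Agent.Helper88.Q2.XE
import Pool.Agent.Helper91.Q2.ZG
import Pool.Agent.Helper93.Q2.KE2
import Pool.Agent.Helper99.Q2.LD
import Pool.Agent.Helper11.SI.DL
import Pool.Agent.Helper94.SI.DU
import Pool.Agent.Helper68.SI.DW
import Pool.Agent.Helper17.SI.FJ0
import Pool.Agent.Helper34.SI.FJ1
import Pool.Agent.Helper93.SI.FR
import Pool.Agent.Helper63.SI.LB
import Pool.Agent.Helper99.SI.MT
import Pool.Agent.Helper67.SI.OSC
import Pool.Agent.Helper13.SI.TSQ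
import Pool.Agent.Helper78.SI.WI
import Pool.Agent.Helper38.SJ.MK2
import Pool.Agent.Helper40.SJ.SB
import Pool.Agent.Helper88.SJ.SUP
import Pool.Agent.Helper24.SJ.TLE
import Pool.Agent.Helper40.SJ.GWK
import Pool.Agent.Helper93.SJ.LOWD
import Pool.Agent.Helper38.SJ.TLD
import Pool.Agent.Helper82.SJ.ZA
import Pool.Agent.Helper24.SJ.APK
import Pool.Agent.Helper12.SJ.CMK
import Pool.Agent.Helper59.SJ.TLK
import Pool.Agent.Helper85.SJ.UPK
import Pool.Agent.Helper57.SJ.UN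

/-!
# Assembly: typical short intervals with an exceptional set of measure `T H^{-B}`
-/

set_option autoImplicit false

namespace Pool.Agent.Helper57.SJ

theorem a_dt1 : Pool.Agent.Helper57.QZ.ST_DT1 := Pool.Agent.Helper77.QZ.st_dt1
theorem a_dt2 : Pool.Agent.Helper57.QZ.ST_DT2 := Pool.Agent.Helper57.QZ.st_DT2
theorem a_xs : Pool.Agent.Helper57.QZ.ST_XS :=
  Pool.Agent.Helper31.Q2.xs_of Pool.Agent.Helper76.QZ.st_PL
    (Pool.Agent.Helper57.QZ.xm_of Pool.Agent.Helper57.QZ.st_XE Pool.Agent.Helper57.QZ.st_XB)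
    (Pool.Agent.Helper57.QZ.xd_of Pool.Agent.Helper57.QZ.st_XB) Pool.Agent.Helper57.QZ.st_XB
theorem a_xr : Pool.Agent.Helper57.QZ.ST_XR := Pool.Agent.Helper57.QZ.xr_of a_xs
theorem a_ld : Pool.Agent.Helper57.QZ.ST_LD :=
  Pool.Agent.Helper57.QZ.ld_of Pool.Agent.Helper57.QZ.st_ZG
theorem a_gd1 : Pool.Agent.Helper57.QZ.ST_GD1 :=
  Pool.Agent.Helper76.Q2.gd1_of a_ld Pool.Agent.Helper57.QZ.st_ke1
    Pool.Agent.Helper93.Q2.st_ke2
theorem a_gd2 : Pool.Agent.Helper57.QZ.ST_GD2 :=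
  Pool.Agent.Helper57.QZ.gd2_of a_gd1 Pool.Agent.Helper57.QZ.st_ke1
    Pool.Agent.Helper57.QZ.st_KE3 Pool.Agent.Helper57.QZ.st_br Pool.Agent.Helper32.QZ.st_ep
theorem a_osc : Pool.Agent.Helper57.SI.ST_OSC :=
  Pool.Agent.Helper67.SI.st_OSC Pool.Agent.Helper93.SI.st_FR
theorem a_wi : Pool.Agent.Helper57.SI.ST_WI :=
  Pool.Agent.Helper78.SI.st_WI a_osc Pool.Agent.Helper34.SI.st_FJ1
theorem a_lb : Pool.Agent.Helper57.SI.ST_LB := Pool.Agent.Helper63.SI.st_LB a_wi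
theorem a_sup : ST_SUP :=
  Pool.Agent.Helper88.SJ.st_SUP Pool.Agent.Helper38.SJ.st_MK2 Pool.Agent.Helper40.SJ.st_SB
theorem a_gwk : ST_GWK := Pool.Agent.Helper40.SJ.st_GWK a_xr Pool.Agent.Helper38.SJ.st_MK2
theorem a_tlk : ST_TLK := Pool.Agent.Helper59.SJ.st_TLK a_sup
theorem a_upk : ST_UPK :=
  Pool.Agent.Helper85.SJ.st_UPK a_sup Pool.Agent.Helper24.SJ.st_TLE Pool.Agent.Helper13.SI.st_TSQ
theorem a_lowd : ST_LOWD :=
  Pool.Agent.Helper93.SJ.st_LOWD Pool.Agent.Helper17.SI.st_FJ0 a_lb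
theorem a_apk : ST_APK := Pool.Agent.Helper24.SJ.st_APK a_gd2 a_gwk a_tlk
theorem a_cmk : ST_CMK :=
  Pool.Agent.Helper12.SJ.st_CMK Pool.Agent.Helper99.SI.st_MT
    (Pool.Agent.Helper94.SI.st_DU a_dt1 a_dt2) (Pool.Agent.Helper11.SI.st_DL a_dt1)
    (Pool.Agent.Helper68.SI.st_DW a_dt2) a_apk a_upk a_lowd Pool.Agent.Helper38.SJ.st_TLD
    Pool.Agent.Helper82.SJ.st_ZA a_dt1
theorem a_un : ST_UN := st_UN a_cmk

end Pool.Agent.Helper57.SJ
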