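import Pool.Agent.Helper57.SJ.Stmts
import Pool.Agent.Helper57.SI.SI

/-! Row SJ of the sheet `Helper57/SJ/Stmts.lean`. -/

set_option autoImplicit false

namespace Pool.Agent.Helper57.SJ

open MeasureTheory Set Filter Topology
open Pool.Agent.Helper57.QZ (Pr tor circ aa Zy Wy Sy Vy Ky Fy pt lin)
open Pool.Agent.Helper57.SI (wsup si57_sup si57_alg)

/-- Row SJ. -/
theorem st_SJ (h : ST_NTT) : ST_SJ := by
  intro δ hδ
  have hd : δ / 20 ∈ Ioo (0:ℝ) 1 := ⟨by linarith [hδ.1], by linarith [hδ.2]⟩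
  obtain ⟨c, hc, H₀, T₀, hH₀, hT₀, h1⟩ := h (δ / 20) hd
  refine ⟨c, hc, H₀, T₀, hH₀, hT₀, fun T hT H hH hHT => ?_⟩
  obtain ⟨hL, A, hA, E, hE1, hE2, h3⟩ := h1 T hT H hH hHT
  have hT0 : 0 < T := by linarith
  refine ⟨E, hE1, hE2.trans (by nlinarith [hδ.1]), fun u hu hu' θ => ?_⟩
  obtain ⟨hall, ⟨t₁, ht₁, hz1, hw1⟩, hθ⟩ := h3 u hu hu'
  obtain ⟨t₂, ht₂, hw2⟩ := hθ θ
  have hd0 : 0 < δ / 20 := hd.1
  have hd1 : δ / 20 ≤ 1 / 20 := by linarith [hδ.2]
  have hL0 : 0 < Real.log (Real.log H) := by linarith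
  have hH0 : 0 ≤ H := by linarith
  have hder : ∀ t ∈ Icc u (u + H), ‖deriv riemannZeta (pt 1 t)‖ =
      ‖riemannZeta (pt 1 t)‖ * ‖deriv riemannZeta (pt 1 t) / riemannZeta (pt 1 t)‖ := by
    intro t ht
    rw [← norm_mul, mul_div_cancel₀ _ (hall t ht).1]
  have s1 := si57_sup (f := fun t => ‖riemannZeta (pt 1 t)‖) hH0
    (fun t ht => (hall t ht).2.1) ⟨t₁, ht₁, hz1⟩
  have s2 := si57_sup (f := fun t => ‖deriv riemannZeta (pt 1 t)‖) (u := u) (H := H)
    (a := (1 - δ / 20) * A * ((1 - δ / 20) * Real.log (Real.log H)))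
    (b := (1 + δ / 20) * A * ((1 + δ / 20) * Real.log (Real.log H))) hH0
    (fun t ht => by
      show ‖deriv riemannZeta (pt 1 t)‖ ≤ _
      rw [hder t ht]
      exact mul_le_mul (hall t ht).2.1 (hall t ht).2.2 (norm_nonneg _) (by positivity))
    ⟨t₁, ht₁, by
      show _ ≤ ‖deriv riemannZeta (pt 1 t₁)‖
      rw [hder t₁ ht₁]
      exact mul_le_mul hz1 hw1 (mul_nonneg (by linarith) hL0.le) (norm_nonneg _)⟩
  have s3 := si57_sup (f := fun t => (Complex.exp (-((θ : ℂ) * Complex.I)) *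
      (deriv riemannZeta (pt 1 t) / riemannZeta (pt 1 t))).re) (u := u) (H := H)
    (a := (1 - δ / 20) * Real.log (Real.log H))
    (b := (1 + δ / 20) * Real.log (Real.log H)) hH0
    (fun t ht => by
      refine (Complex.re_le_norm _).trans ?_
      rw [norm_mul, show -((θ : ℂ) * Complex.I) = ((-θ : ℝ) : ℂ) * Complex.I by push_cast; ring,
        Complex.norm_exp_ofReal_mul_I, one_mul]
      exact (hall t ht).2.2)
    ⟨t₂, ht₂, hw2⟩
  have h4 := si57_alg hd0 hd1 hA hL0 s1.1 s1.2 s2.1 s2.2 s3.1 s3.2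
  have hM : 0 ≤ wsup u H (fun t => ‖deriv riemannZeta (pt 1 t)‖) /
      wsup u H (fun t => ‖riemannZeta (pt 1 t)‖) := by
    refine div_nonneg (le_trans ?_ s2.1) (le_trans ?_ s1.1)
    · exact mul_nonneg (mul_nonneg (by linarith) hA.le) (mul_nonneg (by linarith) hL0.le)
    · exact mul_nonneg (by linarith) hA.le
  refine ⟨?_, ?_, ?_⟩
  · refine le_trans (mul_le_mul_of_nonneg_right ?_ hM) h4.1
    linarith
  · refine le_trans h4.2.1 (mul_le_mul_of_nonneg_right ?_ hM)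
    linarith
  · refine h4.2.2.trans (mul_le_mul_of_nonneg_right ?_ hL0.le)
    linarith

end Pool.Agent.Helper57.SJ
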