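import Pool.Agent.Helper57.SI.Stmts
import Pool.Agent.Helper57.QZ.Stmts2

/-!
# Statement sheet: typical short intervals of length up to a power of `T`
-/

set_option autoImplicit false

namespace Pool.Agent.Helper57.SJ

open MeasureTheory Set Filter Topology
open Pool.Agent.Helper57.QZ (Pr tor circ aa Zy Wy Sy Vy Ky pt lin Good zA Pz)
open Pool.Agent.Helper57.SI (wsup P1 P2 fej fc gc Kk zz ZZ ww D1 D2 tl)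

/-- the primes in `(x, y]` -/
def PP (x y : ℕ) : Finset ℕ := (Finset.Icc (x + 1) y).filter Nat.Prime

/-- Markov's inequality for the integrals over intervals inside `[T, 2T]` -/
def ST_MK2 : Prop := ∀ (f : ℝ → ℝ) (H c T : ℝ), 1 ≤ H → 0 < c → H + 2 ≤ T →
  IntegrableOn f (Icc T (2 * T)) → (∀ t, 0 ≤ f t) →
  ∃ E : Set ℝ, E ⊆ Icc T (2 * T) ∧
    volume.real E ≤ (H + 2) * (1 + (∫ t in T..(2 * T), f t) / c) ∧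
    ∀ u ∈ Icc T (2 * T), u ∉ E → T ≤ u - 1 ∧ u + H + 1 ≤ 2 * T ∧
      ∫ t in (u - 1)..(u + H + 1), f t ≤ c

/-- a pointwise value of a power against an integral -/
def ST_SB : Prop := ∀ (f f' : ℝ → ℂ) (k : ℕ), 1 ≤ k → (∀ t, HasDerivAt f (f' t) t) →
  Continuous f' → ∀ t : ℝ, ‖f t‖ ^ (2 * k) ≤
    (2 * k + 1) * ∫ s in t..(t + 1), (‖f s‖ ^ (2 * k) + ‖f' s‖ ^ (2 * k))

/-- large values of a sum over primes in intervals -/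
def ST_SUP : Prop := ∀ (P : Finset ℕ) (a : ℕ → ℂ) (M S B η H T : ℝ) (k : ℕ),
  (∀ p ∈ P, p.Prime) → (∀ p ∈ P, (p : ℝ) ≤ M) → 1 ≤ M → 1 ≤ k → 0 < η → 1 ≤ H → H + 2 ≤ T →
  ∑ p ∈ P, (‖a p‖ * (1 + Real.log p)) ^ 2 ≤ S → ∑ p ∈ P, ‖a p‖ * (1 + Real.log p) ≤ B →
  ∃ E : Set ℝ, E ⊆ Icc T (2 * T) ∧
    volume.real E ≤ (H + 2) * (1 + (4 * k + 2) *
      (T * (k.factorial * S ^ k) + 2 * M ^ k * B ^ (2 * k)) / η ^ (2 * k)) ∧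
    ∀ u ∈ Icc T (2 * T), u ∉ E → ∀ t ∈ Icc u (u + H),
      ‖∑ p ∈ P, a p * Complex.exp (-((t * Real.log p : ℝ) * Complex.I))‖ ≤ η

/-- no zero is near almost all intervals -/
def ST_GW : Prop := ∀ ε ∈ Ioo (0:ℝ) (1 / 2), ∃ c ∈ Ioo (0:ℝ) 1, ∀ κ : ℝ, 0 < κ →
  ∃ T₀ : ℝ, 4 ≤ T₀ ∧ ∀ T : ℝ, T₀ ≤ T → ∀ H : ℝ, 1 ≤ H → H ≤ T ^ c →
  ∃ E : Set ℝ, E ⊆ Icc T (2 * T) ∧ volume.real E ≤ κ * T ∧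
  ∀ u ∈ Icc T (2 * T), u ∉ E → T ≤ u - 1 ∧ u + H + 1 ≤ 2 * T ∧
    ∀ t ∈ Icc u (u + H), Good ε T t

/-- the sum over the primes in `(z, z^6]`, `z = (log T)^A`, at all points of almost all intervals -/
def ST_TLT : Prop := ∀ ε ∈ Ioo (0:ℝ) (1 / 2), ∀ C η : ℝ, 0 < C → 0 < η →
  ∃ A₀ : ℝ, 3 ≤ A₀ ∧ ∀ A : ℝ, A₀ ≤ A → ∃ c ∈ Ioo (0:ℝ) 1, ∀ κ : ℝ, 0 < κ →
  ∃ T₀ : ℝ, 4 ≤ T₀ ∧ ∀ T : ℝ, T₀ ≤ T → ∀ H : ℝ, 1 ≤ H → H ≤ T ^ c → ∀ a : ℕ → ℂ,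
  (∀ p : ℕ, zA A T < p → ‖a p‖ ≤ C * ((p : ℝ) ^ (-(1 / 2 + ε)) * Real.log p)) →
  ∃ E : Set ℝ, E ⊆ Icc T (2 * T) ∧ volume.real E ≤ κ * T ∧
  ∀ u ∈ Icc T (2 * T), u ∉ E → ∀ t ∈ Icc u (u + H),
    ‖∑ p ∈ Pz (zA A T), a p * Complex.exp (-((t * Real.log p : ℝ) * Complex.I))‖ ≤ η

/-- the tail as a sum over a set of primes -/
def ST_TLE : Prop := ∀ (j y x : ℕ) (t : ℝ), tl j y x (lin y t) =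
  ∑ p ∈ PP x y, ((Real.log (p : ℝ) ^ j / (p : ℝ) : ℝ) : ℂ) *
    Complex.exp (-((t * Real.log p : ℝ) * Complex.I))

/-- the tails at all points of almost all intervals -/
def ST_UPT : Prop := ∀ η ∈ Ioo (0:ℝ) 1, ∀ A : ℝ, 3 ≤ A → ∃ c ∈ Ioo (0:ℝ) 1, ∀ κ : ℝ, 0 < κ →
  ∃ H₀ T₀ : ℝ, 3 ≤ H₀ ∧ 4 ≤ T₀ ∧ ∀ T : ℝ, T₀ ≤ T → ∀ H : ℝ, H₀ ≤ H → H ≤ T ^ c →
  ∃ E : Set ℝ, E ⊆ Icc T (2 * T) ∧ volume.real E ≤ κ * T ∧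
  ∀ u ∈ Icc T (2 * T), u ∉ E → ∀ t ∈ Icc u (u + H),
    ‖tl 0 (zA A T) (ZZ η H) (lin (zA A T) t)‖ ≤ η ∧
    ‖tl 1 (zA A T) (ZZ η H) (lin (zA A T) t)‖ ≤ η

/-- a nonzero frequency is not small, with two more primes -/
def ST_FR2 : Prop := ∀ (z K y q q' : ℕ) (k : Pr z → ℤ), (∀ p, |k p| ≤ (K : ℤ)) →
  q.Prime → q'.Prime → z < q → z < q' → q ≤ y → q' ≤ y → (k ≠ 0 ∨ q ≠ q') →
  1 / ((4 : ℝ) ^ (K * z) * y) ≤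
    |(∑ p : Pr z, (k p : ℝ) * Real.log ((p : ℕ) : ℝ)) + Real.log q - Real.log q'|

/-- the weighted second moment along the line -/
def ST_TWT : Prop := ∀ (y z K j : ℕ) (α T : ℝ), 1 ≤ K → j ≤ 1 → 1 ≤ y → 0 < T →
  ∫ t in T..(2 * T), ww z K α t * ‖tl j y z (lin y t)‖ ^ 2 ≤
    T * (∑ p : Pr y, if z < (p : ℕ) then
      (Real.log ((p : ℕ) : ℝ) ^ j / ((p : ℕ) : ℝ)) ^ 2 else 0) +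
    2 * 4 ^ (K * z) * (2 * K + 1) ^ z * y ^ 3

/-- almost every interval contains a point with the phase `α` -/
def ST_LOWT : Prop := ∀ η ∈ Ioo (0:ℝ) 1, ∀ κ : ℝ, 0 < κ → ∀ A : ℝ, 3 ≤ A →
  ∃ H₀ T₀ : ℝ, 3 ≤ H₀ ∧ 4 ≤ T₀ ∧ ∀ T : ℝ, T₀ ≤ T → ∀ H : ℝ, H₀ ≤ H →
  H ≤ T ^ (1 / 2 : ℝ) → zz H ≤ zA A T ∧ ∀ α : ℝ,
  ∃ E : Set ℝ, E ⊆ Icc T (2 * T) ∧ volume.real E ≤ κ * T ∧
  ∀ u ∈ Icc T (2 * T), u ∉ E → ∃ t ∈ Icc u (u + H),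
    D1 (zz H) α t ≤ η ∧ D2 (zz H) α t ≤ η * Real.log (zz H) ∧
    ‖tl 0 (zA A T) (zz H) (lin (zA A T) t)‖ ≤ η ∧ ‖tl 1 (zA A T) (zz H) (lin (zA A T) t)‖ ≤ η

/-- `ζ` against the short Euler product at all points of almost all intervals -/
def ST_AP : Prop := ∀ η ∈ Ioo (0:ℝ) (1 / 2), ∃ A : ℝ, 3 ≤ A ∧ ∃ c ∈ Ioo (0:ℝ) 1,
  ∀ κ : ℝ, 0 < κ → ∃ T₀ : ℝ, 4 ≤ T₀ ∧ ∀ T : ℝ, T₀ ≤ T → ∀ H : ℝ, 1 ≤ H → H ≤ T ^ c →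
  ∃ E : Set ℝ, E ⊆ Icc T (2 * T) ∧ volume.real E ≤ κ * T ∧
  ∀ u ∈ Icc T (2 * T), u ∉ E → ∀ t ∈ Icc u (u + H), riemannZeta (pt 1 t) ≠ 0 ∧
    |Real.log ‖riemannZeta (pt 1 t)‖ - Real.log ‖Zy (zA A T) 1 (lin (zA A T) t)‖| ≤ η ∧
    ‖deriv riemannZeta (pt 1 t) / riemannZeta (pt 1 t) - Wy (zA A T) 1 (lin (zA A T) t)‖ ≤ η

/-- the combination, for one direction -/
def ST_CMT : Prop := ∀ δ ∈ Ioo (0:ℝ) 1, ∃ c ∈ Ioo (0:ℝ) 1, ∀ κ : ℝ, 0 < κ →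
  ∃ H₀ T₀ : ℝ, 3 ≤ H₀ ∧ 4 ≤ T₀ ∧ ∀ T : ℝ, T₀ ≤ T → ∀ H : ℝ, H₀ ≤ H → H ≤ T ^ c →
  1 ≤ Real.log (Real.log H) ∧ ∃ A : ℝ, 0 < A ∧ ∀ θ : ℝ,
  ∃ E : Set ℝ, E ⊆ Icc T (2 * T) ∧ volume.real E ≤ κ * T ∧ ∀ u ∈ Icc T (2 * T), u ∉ E →
  (∀ t ∈ Icc u (u + H), riemannZeta (pt 1 t) ≠ 0 ∧ ‖riemannZeta (pt 1 t)‖ ≤ (1 + δ) * A ∧
    ‖deriv riemannZeta (pt 1 t) / riemannZeta (pt 1 t)‖ ≤
      (1 + δ) * Real.log (Real.log H)) ∧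
  (∃ t ∈ Icc u (u + H), (1 - δ) * A ≤ ‖riemannZeta (pt 1 t)‖ ∧
    (1 - δ) * Real.log (Real.log H) ≤
      ‖deriv riemannZeta (pt 1 t) / riemannZeta (pt 1 t)‖) ∧
  ∃ t ∈ Icc u (u + H), (1 - δ) * Real.log (Real.log H) ≤
    (Complex.exp (-((θ : ℂ) * Complex.I)) *
      (deriv riemannZeta (pt 1 t) / riemannZeta (pt 1 t))).re

/-- the combination, for all directions -/
def ST_NTT : Prop := ∀ δ ∈ Ioo (0:ℝ) 1, ∃ c ∈ Ioo (0:ℝ) 1,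
  ∃ H₀ T₀ : ℝ, 3 ≤ H₀ ∧ 4 ≤ T₀ ∧ ∀ T : ℝ, T₀ ≤ T → ∀ H : ℝ, H₀ ≤ H → H ≤ T ^ c →
  1 ≤ Real.log (Real.log H) ∧ ∃ A : ℝ, 0 < A ∧
  ∃ E : Set ℝ, E ⊆ Icc T (2 * T) ∧ volume.real E ≤ δ * T ∧ ∀ u ∈ Icc T (2 * T), u ∉ E →
  (∀ t ∈ Icc u (u + H), riemannZeta (pt 1 t) ≠ 0 ∧ ‖riemannZeta (pt 1 t)‖ ≤ (1 + δ) * A ∧
    ‖deriv riemannZeta (pt 1 t) / riemannZeta (pt 1 t)‖ ≤
      (1 + δ) * Real.log (Real.log H)) ∧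
  (∃ t ∈ Icc u (u + H), (1 - δ) * A ≤ ‖riemannZeta (pt 1 t)‖ ∧
    (1 - δ) * Real.log (Real.log H) ≤
      ‖deriv riemannZeta (pt 1 t) / riemannZeta (pt 1 t)‖) ∧
  ∀ θ : ℝ, ∃ t ∈ Icc u (u + H), (1 - δ) * Real.log (Real.log H) ≤
    (Complex.exp (-((θ : ℂ) * Complex.I)) *
      (deriv riemannZeta (pt 1 t) / riemannZeta (pt 1 t))).re

/-- the theorem on typical short intervals, of length up to a power of `T` -/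
def ST_SJ : Prop := ∀ δ ∈ Ioo (0:ℝ) 1, ∃ c ∈ Ioo (0:ℝ) 1,
  ∃ H₀ T₀ : ℝ, 3 ≤ H₀ ∧ 4 ≤ T₀ ∧ ∀ T : ℝ, T₀ ≤ T → ∀ H : ℝ, H₀ ≤ H → H ≤ T ^ c →
  ∃ E : Set ℝ, E ⊆ Icc T (2 * T) ∧ volume.real E ≤ δ * T ∧
  ∀ u ∈ Icc T (2 * T), u ∉ E → ∀ θ : ℝ,
  (1 - δ) * (wsup u H (fun t => ‖deriv riemannZeta (pt 1 t)‖) /
      wsup u H (fun t => ‖riemannZeta (pt 1 t)‖)) ≤
    wsup u H (fun t => (Complex.exp (-((θ : ℂ) * Complex.I)) *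
      (deriv riemannZeta (pt 1 t) / riemannZeta (pt 1 t))).re) ∧
  wsup u H (fun t => (Complex.exp (-((θ : ℂ) * Complex.I)) *
      (deriv riemannZeta (pt 1 t) / riemannZeta (pt 1 t))).re) ≤
    (1 + δ) * (wsup u H (fun t => ‖deriv riemannZeta (pt 1 t)‖) /
      wsup u H (fun t => ‖riemannZeta (pt 1 t)‖)) ∧
  |wsup u H (fun t => (Complex.exp (-((θ : ℂ) * Complex.I)) *
      (deriv riemannZeta (pt 1 t) / riemannZeta (pt 1 t))).re) - Real.log (Real.log H)| ≤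
    δ * Real.log (Real.log H)

end Pool.Agent.Helper57.SJ
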