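import Pool.Agent.Helper57.SJ.Stmts

/-!
# Statement sheet: typical short intervals, with an exceptional set of measure `T H^{-B}`
-/

set_option autoImplicit false

namespace Pool.Agent.Helper57.SJ

open MeasureTheory Set Filter Topology
open Pool.Agent.Helper57.QZ (Pr tor circ aa Zy Wy Sy Vy Ky pt lin Good zA Pz)
open Pool.Agent.Helper57.SI (wsup P1 P2 fej fc gc Kk zz ZZ ww D1 D2 tl)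

/-- no zero is near almost all intervals -/
def ST_GWK : Prop := ∀ ε ∈ Ioo (0:ℝ) (1 / 2), ∀ B : ℝ, 1 ≤ B → ∃ c ∈ Ioo (0:ℝ) 1,
  ∃ T₀ : ℝ, 4 ≤ T₀ ∧ ∀ T : ℝ, T₀ ≤ T → ∀ H : ℝ, 2 ≤ H → H ≤ T ^ c →
  ∃ E : Set ℝ, E ⊆ Icc T (2 * T) ∧ volume.real E ≤ T * H ^ (-B) ∧
  ∀ u ∈ Icc T (2 * T), u ∉ E → T ≤ u - 1 ∧ u + H + 1 ≤ 2 * T ∧
    ∀ t ∈ Icc u (u + H), Good ε T t

/-- the sum over the primes in `(z, z^6]`, `z = (log T)^A`, at all points of almost all intervals -/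
def ST_TLK : Prop := ∀ ε ∈ Ioo (0:ℝ) (1 / 2), ∀ C η : ℝ, 0 < C → 0 < η →
  ∃ A₀ : ℝ, 3 ≤ A₀ ∧ ∀ A : ℝ, A₀ ≤ A → ∀ B : ℝ, 1 ≤ B → ∃ c ∈ Ioo (0:ℝ) 1,
  ∃ T₀ : ℝ, 4 ≤ T₀ ∧ ∀ T : ℝ, T₀ ≤ T → ∀ H : ℝ, 2 ≤ H → H ≤ T ^ c → ∀ a : ℕ → ℂ,
  (∀ p : ℕ, zA A T < p → ‖a p‖ ≤ C * ((p : ℝ) ^ (-(1 / 2 + ε)) * Real.log p)) →
  ∃ E : Set ℝ, E ⊆ Icc T (2 * T) ∧ volume.real E ≤ T * H ^ (-B) ∧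
  ∀ u ∈ Icc T (2 * T), u ∉ E → ∀ t ∈ Icc u (u + H),
    ‖∑ p ∈ Pz (zA A T), a p * Complex.exp (-((t * Real.log p : ℝ) * Complex.I))‖ ≤ η

/-- the tails at all points of almost all intervals -/
def ST_UPK : Prop := ∀ η ∈ Ioo (0:ℝ) 1, ∀ A : ℝ, 3 ≤ A → ∀ B : ℝ, 1 ≤ B →
  ∃ c ∈ Ioo (0:ℝ) 1, ∃ H₀ T₀ : ℝ, 3 ≤ H₀ ∧ 4 ≤ T₀ ∧
  ∀ T : ℝ, T₀ ≤ T → ∀ H : ℝ, H₀ ≤ H → H ≤ T ^ c →
  ∃ E : Set ℝ, E ⊆ Icc T (2 * T) ∧ volume.real E ≤ T * H ^ (-B) ∧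
  ∀ u ∈ Icc T (2 * T), u ∉ E → ∀ t ∈ Icc u (u + H),
    ‖tl 0 (zA A T) (ZZ η H) (lin (zA A T) t)‖ ≤ η ∧
    ‖tl 1 (zA A T) (ZZ η H) (lin (zA A T) t)‖ ≤ η

/-- every interval contains a point with the phase `α` for the small primes -/
def ST_LOWD : Prop := ∀ η ∈ Ioo (0:ℝ) 1, ∃ H₀ : ℝ, 3 ≤ H₀ ∧ ∀ H : ℝ, H₀ ≤ H →
  ∀ u α : ℝ, ∃ t ∈ Icc u (u + H), D1 (zz H) α t ≤ η ∧ D2 (zz H) α t ≤ η * Real.log (zz H)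

/-- the trivial bound for the primes in `(z, Z]` -/
def ST_TLD : Prop := ∀ (y z Z : ℕ) (φ : Pr y → ℝ), z ≤ Z →
  ‖tl 0 y z φ‖ ≤ (P1 Z - P1 z) + ‖tl 0 y Z φ‖ ∧ ‖tl 1 y z φ‖ ≤ (P2 Z - P2 z) + ‖tl 1 y Z φ‖

/-- `zz H ≤ (log T)^A` -/
def ST_ZA : Prop := ∀ A : ℝ, 3 ≤ A → ∃ H₀ T₀ : ℝ, 3 ≤ H₀ ∧ 4 ≤ T₀ ∧ ∀ T : ℝ, T₀ ≤ T →
  ∀ H : ℝ, H₀ ≤ H → H ≤ T → zz H ≤ zA A T

/-- `ζ` against the short Euler product at all points of almost all intervals -/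
def ST_APK : Prop := ∀ η ∈ Ioo (0:ℝ) (1 / 2), ∃ A : ℝ, 3 ≤ A ∧ ∀ B : ℝ, 1 ≤ B →
  ∃ c ∈ Ioo (0:ℝ) 1, ∃ T₀ : ℝ, 4 ≤ T₀ ∧ ∀ T : ℝ, T₀ ≤ T → ∀ H : ℝ, 3 ≤ H → H ≤ T ^ c →
  ∃ E : Set ℝ, E ⊆ Icc T (2 * T) ∧ volume.real E ≤ T * H ^ (-B) ∧
  ∀ u ∈ Icc T (2 * T), u ∉ E → u + H ≤ 2 * T ∧ ∀ t ∈ Icc u (u + H), riemannZeta (pt 1 t) ≠ 0 ∧
    |Real.log ‖riemannZeta (pt 1 t)‖ - Real.log ‖Zy (zA A T) 1 (lin (zA A T) t)‖| ≤ η ∧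
    ‖deriv riemannZeta (pt 1 t) / riemannZeta (pt 1 t) - Wy (zA A T) 1 (lin (zA A T) t)‖ ≤ η

/-- the combination, for all directions -/
def ST_CMK : Prop := ∀ δ ∈ Ioo (0:ℝ) 1, ∀ B : ℝ, 1 ≤ B → ∃ c ∈ Ioo (0:ℝ) 1,
  ∃ H₀ T₀ : ℝ, 3 ≤ H₀ ∧ 4 ≤ T₀ ∧ ∀ T : ℝ, T₀ ≤ T → ∀ H : ℝ, H₀ ≤ H → H ≤ T ^ c →
  1 ≤ Real.log (Real.log H) ∧ ∃ A : ℝ, 0 < A ∧
  ∃ E : Set ℝ, E ⊆ Icc T (2 * T) ∧ volume.real E ≤ T * H ^ (-B) ∧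
  ∀ u ∈ Icc T (2 * T), u ∉ E → u + H ≤ 2 * T ∧
  (∀ t ∈ Icc u (u + H), riemannZeta (pt 1 t) ≠ 0 ∧ ‖riemannZeta (pt 1 t)‖ ≤ (1 + δ) * A ∧
    ‖deriv riemannZeta (pt 1 t) / riemannZeta (pt 1 t)‖ ≤
      (1 + δ) * Real.log (Real.log H)) ∧
  (∃ t ∈ Icc u (u + H), (1 - δ) * A ≤ ‖riemannZeta (pt 1 t)‖ ∧
    (1 - δ) * Real.log (Real.log H) ≤
      ‖deriv riemannZeta (pt 1 t) / riemannZeta (pt 1 t)‖) ∧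
  ∀ θ : ℝ, ∃ t ∈ Icc u (u + H), (1 - δ) * Real.log (Real.log H) ≤
    (Complex.exp (-((θ : ℂ) * Complex.I)) *
      (deriv riemannZeta (pt 1 t) / riemannZeta (pt 1 t))).re

/-- the theorem on typical short intervals, of length up to a power of `T` -/
def ST_SK : Prop := ∀ δ ∈ Ioo (0:ℝ) 1, ∀ B : ℝ, 1 ≤ B → ∃ c ∈ Ioo (0:ℝ) 1,
  ∃ H₀ T₀ : ℝ, 3 ≤ H₀ ∧ 4 ≤ T₀ ∧ ∀ T : ℝ, T₀ ≤ T → ∀ H : ℝ, H₀ ≤ H → H ≤ T ^ c →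
  ∃ E : Set ℝ, E ⊆ Icc T (2 * T) ∧ volume.real E ≤ T * H ^ (-B) ∧
  ∀ u ∈ Icc T (2 * T), u ∉ E → ∀ θ : ℝ,
  (1 - δ) * (wsup u H (fun t => ‖deriv riemannZeta (pt 1 t)‖) /
      wsup u H (fun t => ‖riemannZeta (pt 1 t)‖)) ≤
    wsup u H (fun t => (Complex.exp (-((θ : ℂ) * Complex.I)) *
      (deriv riemannZeta (pt 1 t) / riemannZeta (pt 1 t))).re) ∧
  wsup u H (fun t => (Complex.exp (-((θ : ℂ) * Complex.I)) *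
      (deriv riemannZeta (pt 1 t) / riemannZeta (pt 1 t))).re) ≤
    (1 + δ) * (wsup u H (fun t => ‖deriv riemannZeta (pt 1 t)‖) /
      wsup u H (fun t => ‖riemannZeta (pt 1 t)‖)) ∧
  |wsup u H (fun t => (Complex.exp (-((θ : ℂ) * Complex.I)) *
      (deriv riemannZeta (pt 1 t) / riemannZeta (pt 1 t))).re) - Real.log (Real.log H)| ≤
    δ * Real.log (Real.log H)

/-- the maxima over `[T, 2T]` without a set of measure at most `T^{1-c}` -/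
def ST_GB : Prop := ∀ δ ∈ Ioo (0:ℝ) 1, ∃ c ∈ Ioo (0:ℝ) 1, ∃ T₀ : ℝ, 4 ≤ T₀ ∧
  ∀ T : ℝ, T₀ ≤ T → ∃ G : Set ℝ, G ⊆ Icc T (2 * T) ∧
  volume.real (Icc T (2 * T) \ G) ≤ T ^ (1 - c) ∧ ∀ θ : ℝ,
  (1 - δ) * (sSup ((fun t : ℝ => ‖deriv riemannZeta (pt 1 t)‖) '' G) /
      sSup ((fun t : ℝ => ‖riemannZeta (pt 1 t)‖) '' G)) ≤
    sSup ((fun t : ℝ => (Complex.exp (-((θ : ℂ) * Complex.I)) *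
      (deriv riemannZeta (pt 1 t) / riemannZeta (pt 1 t))).re) '' G) ∧
  sSup ((fun t : ℝ => (Complex.exp (-((θ : ℂ) * Complex.I)) *
      (deriv riemannZeta (pt 1 t) / riemannZeta (pt 1 t))).re) '' G) ≤
    (1 + δ) * (sSup ((fun t : ℝ => ‖deriv riemannZeta (pt 1 t)‖) '' G) /
      sSup ((fun t : ℝ => ‖riemannZeta (pt 1 t)‖) '' G)) ∧
  |sSup ((fun t : ℝ => (Complex.exp (-((θ : ℂ) * Complex.I)) *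
      (deriv riemannZeta (pt 1 t) / riemannZeta (pt 1 t))).re) '' G) -
    Real.log (Real.log T)| ≤ δ * Real.log (Real.log T)

end Pool.Agent.Helper57.SJ
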