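import Pool.Agent.Helper57.SJ.Stmts2
import Pool.Agent.Helper57.SI.SI

/-! The final statement: suprema over unions of typical short intervals, from row CMK. -/

set_option autoImplicit false

namespace Pool.Agent.Helper57.SJ

open MeasureTheory Set Filter Topology
open Pool.Agent.Helper57.QZ (Pr tor circ aa Zy Wy Sy Vy Ky Fy pt lin)
open Pool.Agent.Helper57.SI (si57_alg)

/-- the final theorem: for all `u` outside a set `E` of measure at most `T H^{-B}` and for all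
unions of the corresponding intervals `[u, u + H]` -/
def ST_UN : Prop := ∀ δ ∈ Ioo (0:ℝ) 1, ∀ B : ℝ, 1 ≤ B → ∃ c ∈ Ioo (0:ℝ) 1,
  ∃ H₀ T₀ : ℝ, 3 ≤ H₀ ∧ 4 ≤ T₀ ∧ ∀ T : ℝ, T₀ ≤ T → ∀ H : ℝ, H₀ ≤ H → H ≤ T ^ c →
  ∃ E : Set ℝ, E ⊆ Icc T (2 * T) ∧ volume.real E ≤ T * H ^ (-B) ∧
  ∀ U : Set ℝ, U ⊆ Icc T (2 * T) \ E → U.Nonempty → ∀ G : Set ℝ, G = ⋃ u ∈ U, Icc u (u + H) →
  G ⊆ Icc T (2 * T) ∧ ∀ θ : ℝ,
  (1 - δ) * (sSup ((fun t : ℝ => ‖deriv riemannZeta (pt 1 t)‖) '' G) /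
      sSup ((fun t : ℝ => ‖riemannZeta (pt 1 t)‖) '' G)) ≤
    sSup ((fun t : ℝ => (Complex.exp (-((θ : ℂ) * Complex.I)) *
      (deriv riemannZeta (pt 1 t) / riemannZeta (pt 1 t))).re) '' G) ∧
  sSup ((fun t : ℝ => (Complex.exp (-((θ : ℂ) * Complex.I)) *
      (deriv riemannZeta (pt 1 t) / riemannZeta (pt 1 t))).re) '' G) ≤
    (1 + δ) * (sSup ((fun t : ℝ => ‖deriv riemannZeta (pt 1 t)‖) '' G) /
      sSup ((fun t : ℝ => ‖riemannZeta (pt 1 t)‖) '' G)) ∧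
  |sSup ((fun t : ℝ => (Complex.exp (-((θ : ℂ) * Complex.I)) *
      (deriv riemannZeta (pt 1 t) / riemannZeta (pt 1 t))).re) '' G) -
    Real.log (Real.log H)| ≤ δ * Real.log (Real.log H)

theorem un57_sup {a b : ℝ} {f : ℝ → ℝ} {G : Set ℝ} (hub : ∀ t ∈ G, f t ≤ b)
    (hlb : ∃ t ∈ G, a ≤ f t) : a ≤ sSup (f '' G) ∧ sSup (f '' G) ≤ b := by
  obtain ⟨t, ht, hat⟩ := hlb
  have hbd : BddAbove (f '' G) := by
    refine ⟨b, ?_⟩
    rintro _ ⟨s, hs, rfl⟩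
    exact hub s hs
  constructor
  · exact hat.trans (le_csSup hbd ⟨t, ht, rfl⟩)
  · refine csSup_le ⟨f t, ⟨t, ht, rfl⟩⟩ ?_
    rintro _ ⟨s, hs, rfl⟩
    exact hub s hs

/-- the final theorem from row CMK -/
theorem st_UN (h : ST_CMK) : ST_UN := by
  intro δ hδ B hB
  have hd : δ / 20 ∈ Ioo (0:ℝ) 1 := ⟨by linarith [hδ.1], by linarith [hδ.2]⟩
  obtain ⟨c, hc, H₀, T₀, hH₀, hT₀, h1⟩ := h (δ / 20) hd B hB
  refine ⟨c, hc, H₀, T₀, hH₀, hT₀, fun T hT H hH hHT => ?_⟩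
  obtain ⟨hL, A, hA, E, hE1, hE2, h3⟩ := h1 T hT H hH hHT
  have hT0 : 0 < T := by linarith
  refine ⟨E, hE1, hE2, fun U hU hUne G hG => ?_⟩
  have hin : ∀ u ∈ U, u ∈ Icc T (2 * T) ∧ u ∉ E := fun u hu => hU hu
  have hmem : ∀ t ∈ G, ∃ u ∈ U, t ∈ Icc u (u + H) := by
    intro t ht
    rw [hG] at ht
    simpa only [mem_iUnion, exists_prop] using ht
  have hsub : ∀ u ∈ U, ∀ t ∈ Icc u (u + H), t ∈ G := by
    intro u hu t ht
    rw [hG]
    simp only [mem_iUnion, exists_prop]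
    exact ⟨u, hu, ht⟩
  have hall : ∀ t ∈ G, riemannZeta (pt 1 t) ≠ 0 ∧ ‖riemannZeta (pt 1 t)‖ ≤ (1 + δ / 20) * A ∧
      ‖deriv riemannZeta (pt 1 t) / riemannZeta (pt 1 t)‖ ≤
        (1 + δ / 20) * Real.log (Real.log H) := by
    intro t ht
    obtain ⟨u, hu, htu⟩ := hmem t ht
    exact (h3 u (hin u hu).1 (hin u hu).2).2.1 t htu
  refine ⟨?_, fun θ => ?_⟩
  · intro t ht
    obtain ⟨u, hu, htu⟩ := hmem t ht
    have h4 := (h3 u (hin u hu).1 (hin u hu).2).1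
    have h5 := (hin u hu).1.1
    exact ⟨h5.trans htu.1, htu.2.trans h4⟩
  obtain ⟨u, hu⟩ := hUne
  obtain ⟨-, -, ⟨t₁, ht₁', hz1, hw1⟩, hθ⟩ := h3 u (hin u hu).1 (hin u hu).2
  obtain ⟨t₂, ht₂', hw2⟩ := hθ θ
  have ht₁ : t₁ ∈ G := hsub u hu t₁ ht₁'
  have ht₂ : t₂ ∈ G := hsub u hu t₂ ht₂'
  have hd0 : 0 < δ / 20 := hd.1
  have hd1 : δ / 20 ≤ 1 / 20 := by linarith [hδ.2]
  have hL0 : 0 < Real.log (Real.log H) := by linarith
  have hder : ∀ t ∈ G, ‖deriv riemannZeta (pt 1 t)‖ =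
      ‖riemannZeta (pt 1 t)‖ * ‖deriv riemannZeta (pt 1 t) / riemannZeta (pt 1 t)‖ := by
    intro t ht
    rw [← norm_mul, mul_div_cancel₀ _ (hall t ht).1]
  have s1 := un57_sup (f := fun t => ‖riemannZeta (pt 1 t)‖) (G := G)
    (fun t ht => (hall t ht).2.1) ⟨t₁, ht₁, hz1⟩
  have s2 := un57_sup (f := fun t => ‖deriv riemannZeta (pt 1 t)‖) (G := G)
    (a := (1 - δ / 20) * A * ((1 - δ / 20) * Real.log (Real.log H)))
    (b := (1 + δ / 20) * A * ((1 + δ / 20) * Real.log (Real.log H)))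
    (fun t ht => by
      show ‖deriv riemannZeta (pt 1 t)‖ ≤ _
      rw [hder t ht]
      exact mul_le_mul (hall t ht).2.1 (hall t ht).2.2 (norm_nonneg _) (by positivity))
    ⟨t₁, ht₁, by
      show _ ≤ ‖deriv riemannZeta (pt 1 t₁)‖
      rw [hder t₁ ht₁]
      exact mul_le_mul hz1 hw1 (mul_nonneg (by linarith) hL0.le) (norm_nonneg _)⟩
  have s3 := un57_sup (f := fun t => (Complex.exp (-((θ : ℂ) * Complex.I)) *
      (deriv riemannZeta (pt 1 t) / riemannZeta (pt 1 t))).re) (G := G)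
    (a := (1 - δ / 20) * Real.log (Real.log H))
    (b := (1 + δ / 20) * Real.log (Real.log H))
    (fun t ht => by
      refine (Complex.re_le_norm _).trans ?_
      rw [norm_mul, show -((θ : ℂ) * Complex.I) = ((-θ : ℝ) : ℂ) * Complex.I by push_cast; ring,
        Complex.norm_exp_ofReal_mul_I, one_mul]
      exact (hall t ht).2.2)
    ⟨t₂, ht₂, hw2⟩
  have h4 := si57_alg hd0 hd1 hA hL0 s1.1 s1.2 s2.1 s2.2 s3.1 s3.2
  have hM : 0 ≤ sSup ((fun t : ℝ => ‖deriv riemannZeta (pt 1 t)‖) '' G) /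
      sSup ((fun t : ℝ => ‖riemannZeta (pt 1 t)‖) '' G) := by
    refine div_nonneg (le_trans ?_ s2.1) (le_trans ?_ s1.1)
    · exact mul_nonneg (mul_nonneg (by linarith) hA.le) (mul_nonneg (by linarith) hL0.le)
    · exact mul_nonneg (by linarith) hA.le
  refine ⟨?_, ?_, ?_⟩
  · refine le_trans (mul_le_mul_of_nonneg_right ?_ hM) h4.1
    linarith
  · refine le_trans h4.2.1 (mul_le_mul_of_nonneg_right ?_ hM)
    linarith
  · refine h4.2.2.trans (mul_le_mul_of_nonneg_right ?_ hL0.le)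
    linarith

end Pool.Agent.Helper57.SJ
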